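import Mathlib

/-! Project DT (helper55): FULL ANSWER (YES) to MP_829e7b_ag: the generic determinantal rings are
Lech-stable. Statements of the lemma jobs, with complete proofs in the docstrings.

Overview. `P = K[[x_ij]]`, `I_t` the ideal of the `t`-minors, `r = t - 1`, `R = P / I_t`,
`d = dim R = r (n + m - r)`. For a monomial order in which the leading (smallest) monomial of every
minor is its main diagonal term, let `Lead J` be the set of the exponents of the leading monomials of
the elements of an ideal `J`. For `I_t ⊆ J` of finite colength, `dim P / J` is the number of exponents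
not in `Lead J`, and the support of such an exponent contains no chain of length `t`. The maximal
subsets of the grid without a chain of length `t` have `d` elements, they all contain the corner
`T = (0, m - 1)`, and at most `2 ^ (d - |G|)` of them contain a given set `G`. Interpolation on cubes
(in the directions different from `T`) gives `dim P / (J ^ k + I_t) ≤ k (k + 1) ^ (d - 1) dim P / J`. -/

namespace Pool.Agent.Q55.DT

open Module Filter
open scoped ENNReal

/-- The ideal of the `t`-minors of the generic `n × m` matrix, in the ring of power series. -/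
noncomputable def minorIdeal (K : Type) [Field K] (n m t : ℕ) : Ideal (MvPowerSeries (Fin n × Fin m) K) :=
  Ideal.span {x | ∃ (a : Fin t → Fin n) (b : Fin t → Fin m), StrictMono a ∧ StrictMono b ∧
    x = (Matrix.of fun i j => (MvPowerSeries.X (a i, b j) :
      MvPowerSeries (Fin n × Fin m) K)).det}

/-- The generic determinantal ring `K[[X]] / I_t(X)`. -/
abbrev DetRing (K : Type) [Field K] (n m t : ℕ) : Type :=
  MvPowerSeries (Fin n × Fin m) K ⧸ minorIdeal K n m t

/-- the ideal of `DetRing` generated by the variables -/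
noncomputable def mIdeal (K : Type) [Field K] (n m t : ℕ) : Ideal (DetRing K n m t) :=
  Ideal.span (Set.range fun v : Fin n × Fin m =>
    Ideal.Quotient.mk (minorIdeal K n m t) (MvPowerSeries.X v))

/-- The Krull dimension of a ring, as a natural number. -/
noncomputable def kdim (A : Type) [CommRing A] : ℕ := ((ringKrullDim A).unbotD 0).toNat

/-- The Hilbert–Samuel multiplicity `e(I) = lim d! ℓ(A / I ^ m) / m ^ d`, `d = dim A`, of an ideal
(for an ideal primary to the maximal ideal of a Noetherian local ring the limit exists; we take the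
upper limit, which makes sense for every ideal). -/
noncomputable def hsMult (A : Type) [CommRing A] (I : Ideal A) : ℝ≥0∞ :=
  limsup (fun m : ℕ => ((kdim A).factorial : ℝ≥0∞) *
    ((Module.length A (A ⧸ I ^ m) : ℕ∞) : ℝ≥0∞) / (m : ℝ≥0∞) ^ kdim A) atTop

/-- The Lech–Mumford constant of a local ring `A`: the supremum of `e(I) / (d! ℓ(A / I))` over the
ideals `I` whose radical is the maximal ideal. -/
noncomputable def lechMumford (A : Type) [CommRing A] : ℝ≥0∞ :=
  ⨆ (I : Ideal A) (_ : I.radical.IsMaximal),
    hsMult A I / (((kdim A).factorial : ℝ≥0∞) * ((Module.length A (A ⧸ I) : ℕ∞) : ℝ≥0∞))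

/-- a total order on exponents, compatible with the addition, with finite initial segments -/
structure IsOrd {V : Type} (lt : (V →₀ ℕ) → (V →₀ ℕ) → Prop) : Prop where
  irrefl : ∀ a, ¬ lt a a
  trans : ∀ a b c, lt a b → lt b c → lt a c
  total : ∀ a b, lt a b ∨ a = b ∨ lt b a
  add : ∀ a b c, lt a b → lt (a + c) (b + c)
  fin : ∀ a, {b | lt b a}.Finite

/-- the exponents of the leading (smallest) monomials of the elements of an ideal -/
def Lead {K : Type} [Field K] {V : Type} (lt : (V →₀ ℕ) → (V →₀ ℕ) → Prop)
    (J : Ideal (MvPowerSeries V K)) : Set (V →₀ ℕ) :=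
  {e | ∃ f ∈ J, MvPowerSeries.coeff e f ≠ 0 ∧ ∀ e', lt e' e → MvPowerSeries.coeff e' f = 0}

/-- the weight of an exponent -/
def wt {V : Type} (w : V → ℕ) (e : V →₀ ℕ) : ℕ := e.sum fun v k => k * w v

/-- the ideal contains all the series without terms of degree `< N` -/
def Deep {K : Type} [Field K] {V : Type} (N : ℕ) (J : Ideal (MvPowerSeries V K)) : Prop :=
  ∀ f : MvPowerSeries V K, (∀ e : V →₀ ℕ, e.degree < N → MvPowerSeries.coeff e f = 0) → f ∈ J

/-- `G` contains no chain of length `r + 1` for the strict product order -/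
def ChainFree {n m : ℕ} (r : ℕ) (G : Finset (Fin n × Fin m)) : Prop :=
  ∀ (a : Fin (r + 1) → Fin n) (b : Fin (r + 1) → Fin m), StrictMono a → StrictMono b →
    ∃ k, (a k, b k) ∉ G

/-- **ORD.** Existence of monomial orders refining a positive weight. PROOF. Compare first the weights
`wt w` (natural numbers), then, for equal weights, the lexicographic order of `Finsupp` (`toLex`, for
some linear order on the finite type `V`). Finite initial segments: `wt w b ≤ wt w a` bounds all the
values of `b` (positive weights), so `b` lies in a finite set (`Finsupp` with bounded values on a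
finite type). -/
def S_Ord : Prop := ∀ (V : Type) [Finite V] (w : V → ℕ), (∀ v, 0 < w v) →
  ∃ lt : (V →₀ ℕ) → (V →₀ ℕ) → Prop, IsOrd lt ∧ ∀ a b, wt w a < wt w b → lt a b

/-- **LEAD.** First properties of leading exponents. PROOF. (1) Let `J` be `N`-deep. Enumerate the
finite set `E` of the exponents `e` with `e.degree < N` in increasing order `e_1 < … < e_s`. Let
`G p` = the series `f` with `coeff e_i f = 0` for `i ≤ p`, `L p = J + G p` (subspaces over `K`):
`L 0 = ⊤`, `L s = J`, and `L (p-1) / L p` has dimension `1` if no element of `J ∩ G (p-1)` has a nonzero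
coefficient at `e_p`, and `0` otherwise; subtracting from an element of `J` its part of degree `≥ N`
(which is in `J`) one sees that the second case holds iff `e_p ∈ Lead J`. Every exponent of degree
`≥ N` is in `Lead J` (the monomial itself). So `dim P / J` is the number of exponents not in `Lead J`.
(2) `f f'` has the leading exponent `e + e'`: `coeff (e + e') (f f') = coeff e f * coeff e' f'` because
for `a + b = e + e'`, `(a, b) ≠ (e, e')`, either `a < e` or `b < e'`. (3) Multiply with a monomial. -/
def S_Lead : Prop := ∀ (K : Type) [Field K] (V : Type) [Finite V]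
  (lt : (V →₀ ℕ) → (V →₀ ℕ) → Prop), IsOrd lt →
  (∀ (J : Ideal (MvPowerSeries V K)) (N : ℕ), Deep N J →
    Module.Finite K (MvPowerSeries V K ⧸ J) ∧ (Lead lt J)ᶜ.Finite ∧
    finrank K (MvPowerSeries V K ⧸ J) = (Lead lt J)ᶜ.ncard) ∧
  (∀ (J J' : Ideal (MvPowerSeries V K)), ∀ e ∈ Lead lt J, ∀ e' ∈ Lead lt J',
    e + e' ∈ Lead lt (J * J')) ∧
  (∀ (J : Ideal (MvPowerSeries V K)), ∀ e ∈ Lead lt J, ∀ e', e + e' ∈ Lead lt J) ∧
  (∀ (J : Ideal (MvPowerSeries V K)) (k : ℕ) (a : Fin k → (V →₀ ℕ)), (∀ i, a i ∈ Lead lt J) →
    ∑ i, a i ∈ Lead lt (J ^ k))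

/-- **DIAG.** The main diagonal is the leading term of a minor. PROOF. The weight is
`w (i, j) = (n + 1) (m + 1) - (i + 1) (j + 1) > 0`. In the expansion of the minor (`Matrix.det_apply`)
the term of the permutation `π` is `±` the monomial `∏ x (a (π k), b k)`, of weight
`const - ∑ (a (π k) + 1) (b k + 1)`; by the rearrangement inequality
(`MonovaryOn.sum_mul_comp_perm_lt_sum_mul_iff` and similar) the sum is maximal exactly for `π = 1`,
for strictly increasing `a`, `b`: so the diagonal monomial has coefficient `1` and all the other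
exponents have a larger weight, hence are larger. -/
def S_Diag : Prop := ∀ (K : Type) [Field K] (n m t : ℕ)
  (lt : (Fin n × Fin m →₀ ℕ) → (Fin n × Fin m →₀ ℕ) → Prop), IsOrd lt →
  (∀ a b : Fin n × Fin m →₀ ℕ,
    wt (fun v => (n + 1) * (m + 1) - ((v.1 : ℕ) + 1) * ((v.2 : ℕ) + 1)) a <
      wt (fun v => (n + 1) * (m + 1) - ((v.1 : ℕ) + 1) * ((v.2 : ℕ) + 1)) b → lt a b) →
  ∀ (a : Fin t → Fin n) (b : Fin t → Fin m), StrictMono a → StrictMono b →
    (∑ k, Finsupp.single (a k, b k) 1) ∈ Lead lt (minorIdeal K n m t)

/-- **DCOMB.** The counting inequality. PROOF. Let `h q` (`q : V →₀ ℕ` with `q T = 0`) be the least `τ` with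
`q + τ T ∈ J`. It exists if the support of `q` is in some `F ∈ FF`... (because `Jᶜ` is finite), and
`h q = 0` if the support of `q` is contained in no `F ∈ FF` (`hbad`). So `|Jᶜ| = ∑_q h q`, over the `q`
with support in some `F`. Let `H q` be the least `τ` such that `q + τ T ≥` a sum of `k` elements of `J`;
the set on the left hand side has at most `∑_q H q ≤ ∑_F ∑_{q ∈ ℕ ^ F} H q` elements (finite sums:
`H q = 0` if some coordinate of `q` is large). Fix `F` and write `q = k a + ρ`, `a ∈ ℕ ^ F`,
`ρ ∈ [0, k) ^ F`. For `c ∈ (ℤ / k) ^ F` and `s ∈ ℤ / k` let `ε_c(s) ∈ {0, 1} ^ F`,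
`ε_c(s)_v = 1` iff `(s + c_v) mod k < ρ_v`. Then `∑_s (a + ε_c(s)) = k a + ρ = q`, so
`H q ≤ ∑_s h (a + ε_c(s))`. Sum over all `c`: `k ^ D H q ≤ k ∑_{ε} (∏_{v : ε_v = 1} ρ_v)
(∏_{v : ε_v = 0} (k - ρ_v)) h (a + ε)`. Sum over `ρ`: every factor gives
`∑_{ρ_v < k} ρ_v = k (k - 1) / 2` or `∑ (k - ρ_v) = k (k + 1) / 2`, so
`2 ^ D ∑_ρ H (k a + ρ) ≤ k (k + 1) ^ D ∑_ε h (a + ε)`. Sum over `a ∈ ℕ ^ F`: every `p ∈ ℕ ^ F` with
`|supp p| = g` is `a + ε` in `2 ^ g` ways, so `2 ^ D ∑_{q ∈ ℕ ^ F} H q ≤ k (k + 1) ^ D
∑_{p ∈ ℕ ^ F} 2 ^ |supp p| h p`. Sum over `F ∈ FF` and use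
`#{F ∈ FF | supp p ⊆ F} 2 ^ |supp p| ≤ 2 ^ D`. -/
def S_DComb : Prop := ∀ (V : Type) [Fintype V] [DecidableEq V] (T : V) (D : ℕ)
  (FF : Finset (Finset V)), (∀ F ∈ FF, F.card = D ∧ T ∉ F) →
  (∀ G : Finset V, T ∉ G → (FF.filter (G ⊆ ·)).card * 2 ^ G.card ≤ 2 ^ D) →
  ∀ J : Set (V →₀ ℕ), (∀ e ∈ J, ∀ e', e + e' ∈ J) →
  (∀ e : V →₀ ℕ, (¬ ∃ F ∈ FF, e.support ⊆ insert T F) → e ∈ J) → Jᶜ.Finite →
  ∀ k : ℕ, 1 ≤ k →
    {e : V →₀ ℕ | (∃ F ∈ FF, e.support ⊆ insert T F) ∧
      ¬ ∃ a : Fin k → (V →₀ ℕ), (∀ i, a i ∈ J) ∧ ∑ i, a i ≤ e}.ncard ≤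
      k * (k + 1) ^ D * Jᶜ.ncard

/-- **GRID.** Subsets of the grid without long chains. PROOF. The levels are the diagonals
`j - i = const`; a level with `s` elements is a chain, so it contains at most `min r s` elements of a
chain-free set; the sum of the `min r s` over all the levels is `r (n + m - r)` (`r ≤ n`, `r ≤ m`;
the sizes of the levels are `1, 2, …, min n m, …, min n m, …, 2, 1`): (1). (2) Let `G` be chain-free and
let `G'` be its union with the set `C` of all the elements of the levels with at most `r` elements;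
`G'` is chain-free, because an element of `C` is in no chain of length `r + 1` of the whole grid. For
`v` in the grid let `f v` be the largest length of a chain of `G'` in `{u | u ≤ v}` (product order),
`f = 0` outside of the grid; `f (v - (1, 1)) ≤ f v ≤ f (v - (1, 1)) + 1` (remove the last element of a
chain). `F = {v | f v = f (v - (1, 1)) + 1}`. `F ⊇ G'` (add `g` to a chain below `g - (1, 1)`). `F` is
chain-free: along a chain of `F`, `f` increases by at least `1`, and `f ≤ r`. On a level, the number of
elements of `F` is `f` of the last element of the level, which is `≥ min r s`: if `s ≤ r` the level is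
in `C`; if `s > r` and the last element is `(i, m - 1)`, then `i ≥ r - 1`... the chain
`(0, m - r), (1, m - r + 1), …, (r - 1, m - 1)` is in `C` (level with `r` elements) and below the last
element; similarly `(n - r, 0), …, (n - 1, r - 1)` if the last element is `(n - 1, j)`. So
`|F| = r (n + m - r)`. -/
def S_Grid : Prop := ∀ n m r : ℕ, 1 ≤ r → r ≤ n → r ≤ m →
  (∀ G : Finset (Fin n × Fin m), ChainFree r G → G.card ≤ r * (n + m - r)) ∧
  (∀ G : Finset (Fin n × Fin m), ChainFree r G →
    ∃ F, G ⊆ F ∧ ChainFree r F ∧ F.card = r * (n + m - r))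

/-- **MULT.** Few maximal chain-free sets contain a given set. PROOF. Descending induction on `|G|`
(`d = r (n + m - r)`): it is enough to show: if `|G| < d` there are `v₁, v₂ ∉ G` such that every maximal
`F ⊇ G` (chain-free with `d` elements) contains `v₁` or `v₂` (then the number for `G` is at most the
sum of the numbers for `insert v₁ G`, `insert v₂ G`; for `|G| ≥ d` the only candidate is `G`). By the
count in `S_Grid` such an `F` has exactly `min r s` elements on each level with `s` elements. Take the
first level (for instance with the smallest `j - i`) on which `G` has fewer than `min r s` elements. If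
`s ≤ r` take `v₁ = v₂` in the level, not in `G`. Otherwise the previous level has at least `r` elements
and `G` has `r` of them: `F` and `G` agree on it. Write `S ⊆ ℤ` for the set of rows of `F` on the
previous level `λ - 1` (`|S| = r`), `S'` for the set of rows of `F` on the level `λ`. The elements of
`S'` with rows `≤ x` and the elements of `S` with rows `≥ x + 2` form a chain, so
`#{S' ≤ x} ≤ #{S ≤ x + 1}`; the elements of `S` with rows `≤ x - 1` and the elements of `S'` with rows
`≥ x` form a chain, so `#{S ≤ x - 1} ≤ #{S' ≤ x - 1}`. Hence for a maximal interval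
`[a, b] ⊆ S` (`a - 1, b + 1 ∉ S`): `|S' ∩ [a - 1, b]| = |[a, b]|`. The intervals `[a - 1, b]` are
disjoint, and the lengths of the `[a, b]` sum to `r`; as `G` has fewer than `r` elements on the level,
for some interval `G` has fewer than `b - a + 1` elements with rows in `[a - 1, b]`: there are two
elements `v₁, v₂ ∉ G` of the level with rows in `[a - 1, b]` (or one of the rows is not in the grid;
then `F` contains the other: take `v₁ = v₂`), and `F` misses only one row of `[a - 1, b]`. -/
def S_Mult : Prop := ∀ n m r : ℕ, 1 ≤ r → r ≤ n → r ≤ m → ∀ G : Finset (Fin n × Fin m),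
  Set.ncard {F : Finset (Fin n × Fin m) | G ⊆ F ∧ ChainFree r F ∧ F.card = r * (n + m - r)} *
    2 ^ G.card ≤ 2 ^ (r * (n + m - r))

/-- **DUP.** The dimension is at most `r (n + m - r)`. PROOF. `R = DetRing K n m (r + 1)` is Noetherian
and local. For every level (diagonal `j - i = λ`, with `s` elements) and `1 ≤ k ≤ min r s` let
`θ_{λ, k}` be the elementary symmetric polynomial of degree `k` in the variables of the level: in all
`r (n + m - r)` elements of the maximal ideal. Let `p` be a prime ideal of `R` containing all of them. By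
descending induction on `λ`, `p` contains the variables of the level `λ`: modulo `p` the variables of the
levels `> λ` are zero, so the `(r + 1)`-minor with the rows `i_1 < … < i_{r+1}` and the columns
`i_k + λ` is triangular mod `p` (its entry `(i_a, i_b + λ)` is of level `λ + i_b - i_a > λ` for
`b > a`), and the product of any `r + 1` variables of the level is in `p`; so all the elementary
symmetric polynomials of degree `≥ 1` of the level are in `p`, so `∏ (Z - x_i) = Z ^ s` mod `p` and
`x_i ^ s ∈ p`. Hence `p` is the maximal ideal, which is therefore minimal over the ideal of the `θ`;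
Krull's height theorem (`Ideal.height_le_spanRank_toENat_of_mem_minimalPrimes`,
`IsLocalRing.maximalIdeal_height_eq_ringKrullDim`). -/
def S_DUp : Prop := ∀ (K : Type) [Field K] (n m r : ℕ), 1 ≤ r → r < n → r < m →
  ringKrullDim (DetRing K n m (r + 1)) ≤ (r * (n + m - r) : ℕ)

/-- **LOCD.** PROOF. The maximal ideal of the quotient of the local ring `K[[X]]` by an ideal contained in
its maximal ideal (`t ≥ 1`: the minors have no constant term) is the image of the maximal ideal, which
is generated by the variables (finitely many); the residue field is `K`. Last claim: a series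
without terms of degree `< N` is in `M ^ N` (collect the terms by monomials of degree `N`). -/
def S_LocD : Prop := ∀ (K : Type) [Field K] (n m t : ℕ), 1 ≤ t →
  IsNoetherianRing (DetRing K n m t) ∧ IsLocalRing (DetRing K n m t) ∧
  (∀ a : DetRing K n m t, ∃ z : K, ¬ IsUnit (a - algebraMap K (DetRing K n m t) z)) ∧
  (∀ a : DetRing K n m t, a ∈ mIdeal K n m t ↔ ¬ IsUnit a) ∧
  (∀ (N : ℕ) (f : MvPowerSeries (Fin n × Fin m) K),
    (∀ e : (Fin n × Fin m) →₀ ℕ, e.degree < N → MvPowerSeries.coeff e f = 0) →
    Ideal.Quotient.mk (minorIdeal K n m t) f ∈ mIdeal K n m t ^ N)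

/-- **LEN.** PROOF. `IsLocalRing.length_restrictScalars` (Mathlib) for `K → A`; compare
`Pool/Agent/Q187/LM/LFN.lean` (the same for `K = ℂ`). -/
def S_LenK : Prop := ∀ (K : Type) [Field K] (A : Type) [CommRing A] [IsLocalRing A] [Algebra K A],
  (∀ a : A, ∃ z : K, ¬ IsUnit (a - algebraMap K A z)) → ∀ I : Ideal A,
    Module.length A (A ⧸ I) = Module.length K (A ⧸ I)

/-- **GROWTH.** PROOF. Let `h = ringKrullDim A`, the height of the maximal ideal `M`. By the converse of
Krull's theorem (Mathlib, `KrullsHeightTheorem`, `Ideal.exists_…_height…`) `M` is a minimal prime of an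
ideal `q` with `h` generators `f_1, …, f_h`; `A` is local, so `M` is the only prime containing `q`, and
`M ^ N ≤ q`, and `A / q` has finite length `c`. `q ^ i / q ^ (i + 1)` is generated over `A / q` by the
`C(i + h - 1, h - 1)` monomials of degree `i` in the `f`, so `length (A / q ^ k) ≤ c C(k + h - 1, h)
≤ c' k ^ h` for `k ≥ 1`; and `length (A / M ^ k) ≤ length (A / q ^ k)` since `q ^ k ≤ M ^ k`. -/
def S_Growth : Prop := ∀ (A : Type) [CommRing A] [IsNoetherianRing A] [IsLocalRing A] (h : ℕ),
  ringKrullDim A = h → ∃ c : ℕ, ∀ k : ℕ, 1 ≤ k →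
    Module.length A (A ⧸ (IsLocalRing.maximalIdeal A) ^ k) ≤ ((c * k ^ h : ℕ) : ℕ∞)

/-- **GLOW.** Lower bound for the growth. PROOF. Let `W` be the set of the `(i, j)` with `i < r` or
`j < r`; it has `d = r (n + m - r)` elements. The polynomials of degree `< k` in the variables of `W`
(a space of dimension `C(k - 1 + d, d) ≥ k ^ d / d!`) are linearly independent modulo
`I_t + M ^ k` (`t = r + 1`): let `f` be such a polynomial, `f ∈ I_t + M ^ k` in the ring of power series.
Taking homogeneous components of degree `< k` (the minors are homogeneous) every component of `f` is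
in the ideal generated by the minors in the ring of polynomials `K[X]`. Let `L` be the field of
fractions of `K[x_v : v ∈ W]` and consider the homomorphism `K[X] → L` with `x_v ↦ x_v` for `v ∈ W`
and `x_ij ↦ (C A⁻¹ B)_ij` for `i, j ≥ r`, where `A` is the upper left `r × r` block (its determinant is
not zero in `L`), `B` the block of the first `r` rows and the last columns, `C` the lower left block.
The image of the generic matrix has rank `≤ r` (it is the product of `(A ; C)` and `(1, A⁻¹ B)`), so
all the minors of size `r + 1` go to zero, and so does `f`; but `K[x_v : v ∈ W] → L` is injective. -/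
def S_GLow : Prop := ∀ (K : Type) [Field K] (n m r : ℕ), 1 ≤ r → r < n → r < m → ∀ k : ℕ,
    Module.Finite K (DetRing K n m (r + 1) ⧸ mIdeal K n m (r + 1) ^ k) ∧
    k ^ (r * (n + m - r)) ≤ (r * (n + m - r)).factorial *
      finrank K (DetRing K n m (r + 1) ⧸ mIdeal K n m (r + 1) ^ k)

/-- **LMLOW.** The Lech–Mumford constant is at least `1`. PROOF. `d = kdim A`,
`a k = length (A / M ^ k)`, finite, positive for `k ≥ 1`. For `N ≥ 1`, `(M ^ N).radical = M`, so
`lechMumford A ≥ limsup_k (d! a (N k) / k ^ d) / (d! a N)`. Suppose that `lechMumford A < c < 1`. Then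
for every `N ≥ 1` there is `k ≥ 1` with `a (N k) ≤ c k ^ d a N`, i.e. `b (N k) ≤ c b N`, where
`b N = a N / N ^ d`. Starting with `N = 1` we get `N_j` with `b (N_j) ≤ c ^ j b 1 → 0`. But
`b N ≥ 1 / d!`. -/
def S_LmLow : Prop := ∀ (A : Type) [CommRing A] [IsLocalRing A],
  (∀ k, Module.length A (A ⧸ (IsLocalRing.maximalIdeal A) ^ k) ≠ ⊤) →
  (∀ k : ℕ, ((k ^ kdim A : ℕ) : ℕ∞) ≤
    (kdim A).factorial * Module.length A (A ⧸ (IsLocalRing.maximalIdeal A) ^ k)) →
  1 ≤ lechMumford A

/-- **TONE.** The case `t = 1`. PROOF. The `1`-minors are the variables, so `DetRing K n m 1` is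
isomorphic to the field `K` (a power series without constant term is in the ideal generated by the
variables). For a field `A`: `kdim A = 0`; the only ideal with maximal radical is `⊥`, `⊥ ^ k = ⊥` for
`k ≥ 1`, `length A A = 1`, `e(⊥) = 1`. -/
def S_TOne : Prop := ∀ (K : Type) [Field K] (n m : ℕ), lechMumford (DetRing K n m 1) = 1

end Pool.Agent.Q55.DT
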