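import Pool.Agent.Q55.DT.Stm

/-! Project DT (helper55): statements of the assembly jobs. -/

namespace Pool.Agent.Q55.DT

open Module Filter
open scoped ENNReal

/-- **DIMD.** The dimension of the determinantal ring. PROOF. `≤` is `S_DUp`. `A = DetRing K n m (r + 1)`
is local and Noetherian (`S_LocD`), its maximal ideal `M` is `mIdeal`, `ringKrullDim A` is a natural
number `h ≤ d = r (n + m - r)`. If `h < d`: by `S_Growth`, `length (A / M ^ k) ≤ c k ^ h`, by `S_GLow` and
`S_LenK` (`Module.length_eq_finrank`), `k ^ d ≤ d! length (A / M ^ k) ≤ d! c k ^ h` for all `k ≥ 1`: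
false for `k = d! c + 1`. -/
def S_DimD : Prop := S_LocD → S_DUp → S_Growth → S_GLow → S_LenK →
  ∀ (K : Type) [Field K] (n m r : ℕ), 1 ≤ r → r < n → r < m →
    ringKrullDim (DetRing K n m (r + 1)) = (r * (n + m - r) : ℕ)

/-- **UPD.** The upper bound for the colength of the powers. PROOF. Let `J` be the preimage of `I` in
`P = K[[X]]`, `N` with `mIdeal ^ N ≤ I` (the maximal ideal `mIdeal` is finitely generated and equal to the
radical of `I`), so `J` is `N`-deep by `S_LocD`, and the preimage `J_k = J ^ k ⊔ minorIdeal` of `I ^ k` is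
`N k`-deep. Take `lt` from `S_Ord` with the weight of `S_Diag`. `d = r (n + m - r)`, `D = d - 1`,
`T = (0, m - 1)`, `FF` = the set of all the `F.erase T`, `F` chain-free with `d` elements. `T ∈ F` for all
such `F`: otherwise `insert T F` is chain-free (`T` is in no chain of two elements of the grid, and
`r + 1 ≥ 2`) with `d + 1` elements, contradiction to `S_Grid`. The hypotheses of `S_DComb` for
`Lead J`: the bound is `S_Mult` for `insert T G`; if the support of `e` is not contained in a set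
`insert T F`, `F ∈ FF`, then it is not chain-free by `S_Grid` (2), so it contains a chain `(a, b)` of
length `r + 1`, and `e ≥ ∑ single (a k, b k) 1 ∈ Lead minorIdeal ⊆ Lead J` (`S_Diag`, `S_Lead` (3)).
The complement of `Lead J_k` is contained in the set of `S_DComb`: if `e ≥ ∑ a i`, `a i ∈ Lead J`, then
`e ∈ Lead (J ^ k) ⊆ Lead J_k`; and as before for the supports. So
`finrank (A / I ^ k) = finrank (P / J_k) = |(Lead J_k)ᶜ| ≤ k (k + 1) ^ D |(Lead J)ᶜ|
= k (k + 1) ^ D finrank (A / I)`. -/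
def S_UpD : Prop := S_Ord → S_Lead → S_Diag → S_DComb → S_Grid → S_Mult → S_LocD →
  ∀ (K : Type) [Field K] (n m r : ℕ), 1 ≤ r → r < n → r < m →
    ∀ I : Ideal (DetRing K n m (r + 1)), I.radical = mIdeal K n m (r + 1) →
    Module.Finite K (DetRing K n m (r + 1) ⧸ I) ∧ ∀ k : ℕ, 1 ≤ k →
      Module.Finite K (DetRing K n m (r + 1) ⧸ I ^ k) ∧
      finrank K (DetRing K n m (r + 1) ⧸ I ^ k) ≤
        k * (k + 1) ^ (r * (n + m - r) - 1) * finrank K (DetRing K n m (r + 1) ⧸ I)

/-- **FIND.** PROOF. `t = 1`: `S_TOne`. `t = r + 1`, `r ≥ 1`, `r < n`, `r < m`: `kdim A = d` by `hdim`.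
`≥ 1`: `S_LmLow` with `S_GLow`, `S_LenK`. `≤ 1`: for `I` with maximal radical (`= mIdeal`, the maximal
ideal), `d! length (A / I ^ k) / k ^ d ≤ d! (k + 1) ^ (d - 1) / k ^ (d - 1) length (A / I)`, which
converges to `d! length (A / I)`: `hsMult A I ≤ d! length (A / I)`. (Compare
`Pool/Agent/Q55/LM/Fin.lean`.) -/
def S_FinD : Prop := S_LocD → S_GLow → S_LenK → S_LmLow → S_TOne →
  (∀ (K : Type) [Field K] (n m r : ℕ), 1 ≤ r → r < n → r < m →
    ringKrullDim (DetRing K n m (r + 1)) = (r * (n + m - r) : ℕ)) →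
  (∀ (K : Type) [Field K] (n m r : ℕ), 1 ≤ r → r < n → r < m →
    ∀ I : Ideal (DetRing K n m (r + 1)), I.radical = mIdeal K n m (r + 1) →
    Module.Finite K (DetRing K n m (r + 1) ⧸ I) ∧ ∀ k : ℕ, 1 ≤ k →
      Module.Finite K (DetRing K n m (r + 1) ⧸ I ^ k) ∧
      finrank K (DetRing K n m (r + 1) ⧸ I ^ k) ≤
        k * (k + 1) ^ (r * (n + m - r) - 1) * finrank K (DetRing K n m (r + 1) ⧸ I)) →
  ∀ (K : Type) [Field K] (n m t : ℕ), 1 ≤ t → t ≤ n → t ≤ m → lechMumford (DetRing K n m t) = 1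

end Pool.Agent.Q55.DT
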